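import Pool.Agent.Lib.MP_9cec2c_lc.FGFinal
import Pool.Agent.Lib.MP_9cec2c_lc.FN9

/-!
Frege systems of constant depth with counting gates modulo a prime `p`: exponential lower bounds for
every prime `p` and every finite set of sound rules.

The main idea. Call a world a vector space over a field of characteristic `p` with an increasing
sequence of subspaces (levels) on which the functions of the propositional variables act: a function
of degree `e` moves a level `e` steps up, and products of functions act as compositions, until the
top is reached. If the falsity of the clauses acts as zero on the bottom level and the dimensions of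
all levels agree up to a constant factor, then a derivation of constant depth must be large: random
polynomials in the style of Razborov and Smolensky replace the disjunctions, and the part of the
bottom level on which the approximation of a disjunction fails is found to be small by a potential
made of ranks on all levels. No restrictions and no points of the cube are used.

Such a world of height `N ^ c` comes from random matrices. Let `r` be prime to `p`. The world
consists of functions `f (H, ψ)`, where `H` is an `N × N` Hermitian matrix whose entries off the
diagonal are roots of unity of order `m`, for a certain multiple `m` of `r`, and whose top eigenvalue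
is well separated, and `ψ` is a unit top eigenvector, whose phase is fixed up to a root of unity of
order `r` by the condition that a certain form of degree `r` is positive on `ψ`. The functions
satisfy `f (D H D⁻¹, D ψ) = ω ^ (s v) f (H, ψ)` for the change of phase `D` by a root of unity of
order `r` at each vertex `v`. An edge variable acts by such a change of an entry of `H`, a sum of
edges at a vertex by such a change of a part of a row, and the new eigenvector is the one close to
the old one. The product of all changes of phase maps `(H, ψ)` to `(H, ζ ψ)`, therefore the sum of
the charges need not vanish. For most matrices the top eigenvector is robust under `N ^ c` changes of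
rows, and then the falsity of every clause of the Tseitin contradiction modulo `r` acts as zero.
-/

set_option autoImplicit false

namespace Pool.Agent.Results.MP_9cec2c_lc.ConstantDepthFrege

open Pool.Agent.MP_9cec2c_lc.FG
open Pool.Agent.MP_9cec2c_lc.Flat (TVar)

/-- Let `p` be a prime, and consider propositional formulas with negations, conjunctions and
disjunctions of any number of formulas and counting gates modulo `p`.

There is a finite set of sound rules that is implicationally complete, without an increase of the
depth by more than 1.

But for every finite set `S` of sound rules, where a rule is given by schemes with variables for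
formulas and variables for lists of formulas, there are `c > 0` and `N₀` such that for all `N ≥ N₀`
and all charges `s`, `s'` with nonzero sums the disjunction `theCNF N s s'` of the Tseitin
contradictions modulo 2 and modulo 3 on the complete graph `K_N` is an unsatisfiable CNF with at
most `1701 N ^ 4` clauses, of width at most 6, such that in every depth `d` every refutation of its
clauses and every proof of its negation by the rules in `S` has size at least
`exp (c N ^ (c / (d + 1)))`. The size is the number of lines plus the number of different
subformulas of the lines. -/
theorem result (p : ℕ) [Fact p.Prime] :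
    (∃ S₀ : Set Rule, S₀.Finite ∧ (∀ R ∈ S₀, R.Sound p) ∧
      ∀ (V : Type) [Fintype V] (Φ : Set (Form V)) (φ : Form V) (d : ℕ),
        (∀ ψ ∈ Φ, ψ.Small p ∧ ψ.depth + 1 ≤ d) → φ.Small p → φ.depth + 1 ≤ d →
        (∀ x : V → Bool, (∀ ψ ∈ Φ, ψ.eval p x) → φ.eval p x) →
        ∃ (l : ℕ) (L : Fin l → Form V), IsDerivation S₀ d Φ L ∧ ∃ i, L i = φ) ∧
    ∀ S : Set Rule, S.Finite → (∀ R ∈ S, R.Sound p) →
      ∃ c : ℝ, 0 < c ∧ ∃ N₀ : ℕ, ∀ N ≥ N₀, ∀ (s : Fin N → ZMod 2) (s' : Fin N → ZMod 3),
        ∑ v, s v ≠ 0 → ∑ v, s' v ≠ 0 →
        (∀ D ∈ theCNF N s s', D.length ≤ 6) ∧ (theCNF N s s').length ≤ 1701 * N ^ 4 ∧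
        (∀ x : (TVar N × ZMod 2) ⊕ (TVar N × ZMod 3) → Bool,
          ∃ D ∈ theCNF N s s', ∀ l ∈ D, x l.1 ≠ l.2) ∧
        ∀ (d l : ℕ) (L : Fin l → Form ((TVar N × ZMod 2) ⊕ (TVar N × ZMod 3))),
          Refutes S d (theCNF N s s') L →
          Real.exp (c * (N : ℝ) ^ (c / (d + 1))) ≤ size L := by
  refine ⟨⟨stdRules p, stdRules_finite p, stdRules_sound p, ?_⟩, ?_⟩
  · intro V _ Φ φ d hΦ hφ hd h
    exact complete (Fact.out : p.Prime).pos (fun ψ hψ => (hΦ ψ hψ).1) hφ
      (fun ψ hψ => (hΦ ψ hψ).2) hd h
  · intro S hS hsound
    obtain ⟨c, hc, N₀, h⟩ := fg_both
      (Pool.Agent.MP_9cec2c_lc.Flat.Herm.rmt_main 2 (by norm_num))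
      (Pool.Agent.MP_9cec2c_lc.Flat.Herm.rmt_main 3 (by norm_num)) p hS hsound
    exact ⟨c, hc, N₀, fun N hN s s' hs hs' => ⟨theCNF_width, theCNF_length,
      theCNF_unsat hs hs', fun d l L => h N hN s s' d l L⟩⟩

end Pool.Agent.Results.MP_9cec2c_lc.ConstantDepthFrege
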