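import Pool.Agent.Lib.MP_9cec2c_lc.CQFinal
import Pool.Agent.Lib.MP_9cec2c_lc.CEFinal

/-!
Counting principles in Frege systems of constant depth with counting gates modulo a prime `p`: an
exact classification. The counting principle modulo `r` on `M` points says that there is no partition
of `M` points into sets of `r` points, if `r` does not divide `M`. Let `q` be the largest power of `p`
that divides `r`. If `q` does not divide `M`, there are refutations of polynomial size. If `q` divides
`M`, all refutations and all proofs of constant depth have exponential size, even if only few sets of
`r` points are allowed.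

The lower bound. Let `r = q s` and `M = q m`. The charges of a Tseitin contradiction modulo `s` on a
complete graph with `M ^ (1/2)` vertices and with sum `m` are turned into a partition principle on
`M` points: a variable `y` modulo `s` is represented by `q s` copies of a point, `q y` of which are
matched with the one end of the variable and the rest with its other end, and each vertex has its own
gadget of sets, where the number of its points that are not matched elsewhere is divisible by `q s`
if the equation of the vertex holds. In the world of functions of random Hermitian matrices and their
top eigenvectors, in which the clauses of the Tseitin contradiction are killed, each set of points is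
a function of few variables. The clause of a point may be long in the larger principle, but the
clause that it contains and that speaks of the sets of the gadget is short and is killed.

The upper bound. Let `t` be the largest power of `p` that divides `M`, so `t < q`. The binomial
coefficient `M choose t` is prime to `p`. Count the pairs of a set `T` of `t` points and the set of
the members of the partition that meet `T` in two ways: each `T` gives one pair, and each set of
members belongs to a multiple of `p` pairs.
-/

set_option autoImplicit false

namespace Pool.Agent.Results.MP_9cec2c_lc.CountingPrinciples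

open Pool.Agent.MP_9cec2c_lc.FG

/-- Let `p` be a prime. Consider propositional formulas with negations, conjunctions and disjunctions
of any number of formulas and counting gates modulo `p`. Let `r ≥ 2`, and let
`q = p ^ r.factorization p` be the largest power of `p` that divides `r`. For a family `H` of sets of
`r` points among `0, ..., M - 1`, the formula `partitionCNF H` says that some members of `H` form a
partition of the points. If `H` consists of all sets of `r` points, this is the counting principle
modulo `r` on `M` points; for `r = 2` it says that a graph has a perfect matching.

1. There is a finite set of sound rules that is implicationally complete (without an increase of the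
depth by more than 1) and by which, for each `r ≥ 2` with some `C`, the formula `partitionCNF H` has a
refutation of depth at most 3 and of size at most `(M + 2) ^ C`, for all `M` that are not divisible
by `q` and all families `H` of sets of `r` points.

2. For every finite set `S` of sound rules and every `r ≥ 2` there are `c > 0` and `M₀` such that for
all `M ≥ M₀` that are divisible by `q` and not by `r` there is a family `H` with at most `r ^ 3` sets
at each point such that for all families `H'` of sets of `r` points that contain `H` (for example,
the family of all sets of `r` points) the formula `partitionCNF H'` is unsatisfiable, and in every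
depth `d` every refutation of its clauses and every proof of its negation by the rules in `S` has
size at least `exp (c M ^ (c / (d + 1)))`. -/
theorem result (p : ℕ) [Fact p.Prime] :
    (∃ S₀ : Set Rule, S₀.Finite ∧ (∀ R ∈ S₀, R.Sound p) ∧
      (∀ (V : Type) [Fintype V] (Φ : Set (Form V)) (φ : Form V) (d : ℕ),
        (∀ ψ ∈ Φ, ψ.Small p ∧ ψ.depth + 1 ≤ d) → φ.Small p → φ.depth + 1 ≤ d →
        (∀ x : V → Bool, (∀ ψ ∈ Φ, ψ.eval p x) → φ.eval p x) →
        ∃ (l : ℕ) (L : Fin l → Form V), IsDerivation S₀ d Φ L ∧ ∃ i, L i = φ) ∧
      ∀ r : ℕ, 2 ≤ r → ∃ C : ℕ, ∀ (M : ℕ) (H : Finset (Finset (Fin M))), (∀ B ∈ H, B.card = r) →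
        ¬ p ^ r.factorization p ∣ M →
        ∃ (l : ℕ) (L : Fin l → Form {B // B ∈ H}),
          IsDerivation S₀ 3 {φ | ∃ D ∈ partitionCNF H, φ = clause D} L ∧ (∃ i, L i = falsum) ∧
          size L ≤ (M + 2) ^ C) ∧
    ∀ S : Set Rule, S.Finite → (∀ R ∈ S, R.Sound p) → ∀ r : ℕ, 2 ≤ r →
      ∃ c : ℝ, 0 < c ∧ ∃ M₀ : ℕ, ∀ M ≥ M₀, p ^ r.factorization p ∣ M → ¬ r ∣ M →
        ∃ H : Finset (Finset (Fin M)), (∀ B ∈ H, B.card = r) ∧
          (∀ i, (H.filter fun B => i ∈ B).card ≤ r ^ 3) ∧
          ∀ H' : Finset (Finset (Fin M)), H ⊆ H' → (∀ B ∈ H', B.card = r) →
            (∀ x : {B // B ∈ H'} → Bool, ∃ D ∈ partitionCNF H', ∀ l ∈ D, x l.1 ≠ l.2) ∧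
            ∀ (d l : ℕ) (L : Fin l → Form {B // B ∈ H'}), Refutes S d (partitionCNF H') L →
              Real.exp (c * (M : ℝ) ^ (c / (d + 1))) ≤ size L := by
  have hp : p.Prime := Fact.out
  refine ⟨⟨stdRules p ∪ Pool.Agent.MP_9cec2c_lc.CE.ceRules p,
    (stdRules_finite p).union (Pool.Agent.MP_9cec2c_lc.CE.ceRules_finite p), ?_, ?_, ?_⟩, ?_⟩
  · rintro R (hR | hR)
    · exact stdRules_sound p R hR
    · exact Pool.Agent.MP_9cec2c_lc.CE.ceRules_sound p R hR
  · intro V _ Φ φ d hΦ hφ hd h
    obtain ⟨l, L, h1, h2⟩ := complete hp.pos (fun ψ hψ => (hΦ ψ hψ).1) hφ
      (fun ψ hψ => (hΦ ψ hψ).2) hd h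
    exact ⟨l, L, h1.mono_rules Set.subset_union_left, h2⟩
  · intro r hr
    obtain ⟨C, hC⟩ := Pool.Agent.MP_9cec2c_lc.CE.easy p hp r hr
    refine ⟨C, fun M H hH hM => ?_⟩
    obtain ⟨l, L, h1, h2, h3⟩ := hC M H hH hM
    exact ⟨l, L, h1.mono_rules Set.subset_union_right, h2, h3⟩
  · intro S hS hsound r hr
    obtain ⟨c, hc, M₀, h⟩ := Pool.Agent.MP_9cec2c_lc.CQ.partition_bound p r hr hS hsound
    refine ⟨c, hc, M₀, fun M hM hq hrM => ?_⟩
    obtain ⟨H, h1, h2, h3⟩ := h M hM hq hrM
    exact ⟨H, h1, h2, fun H' hH' hc' =>
      ⟨Pool.Agent.MP_9cec2c_lc.CQ.partition_unsat hc' hrM, h3 H' hH'⟩⟩

end Pool.Agent.Results.MP_9cec2c_lc.CountingPrinciples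

/-
The claim of this former hand-in (its place is taken by `MixedCounting`, which contains it):

Proves: Exact classification of the counting principles for AC0[p]-Frege, p prime. Count_r^M: M points have no partition into r-sets (r does not divide M). Let q be the largest power of p dividing r. (1) Some finite sound set of rules, implicationally complete (residues < p), refutes Count_r^M and all families of r-sets, for r >= 2, q not dividing M, in depth 3, size <= (M+2)^C, C = C(p,r). (2) For each finite sound set S and r >= 2 there are c > 0, M0: if M >= M0, q | M, r does not divide M, every refutation or proof by S of any depth d has size >= exp(c M^(c/(d+1))). (2) holds for each family H' of r-sets containing a certain H with <= r^3 sets at a point: for r = 2, p odd, M odd, perfect matchings in certain graphs of degree <= 8 and in all graphs on M vertices containing them.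
Definitions: Form: NOT, unbounded AND, OR, MOD_(p,a). Small: residues < p. Rule: schemes with variables for formulas, lists of formulas; Sound: true premises, counting mod p, give a true conclusion. IsDerivation: lines are axioms or by a rule. depth: nested AND, OR, MOD; NOT, AND in AND, OR in OR are free. size: lines + different subformulas. partitionCNF H: variables B in H; each point is in a chosen B, chosen B are disjoint. Refutes: derives falsum from the clauses, or proves not F.
Relation: Partial (Cook-Reckhow programme). (2) was a well-known open problem, even for r = 2, p = 3. Known: AC0-Frege with Count_p axioms (Ajtai; Beame et al.; Riis; Buss et al. 1997), PC. (1) is folklore. Tools: Razborov-Smolensky, random matrices.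
-/
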