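import Mathlib
import Pool.Agent.Lib.MP_9cec2c_lc.D5Final

/-!
An exponential lower bound for refutations of CNF formulas in the ideal proof system whose terms
are products of axioms, of arbitrary functions that avoid one of two large sets of variables (which
are chosen after the formula), and of affine forms and functions of few variables in these sets, with
disjoint sets of variables; everything may depend arbitrarily on the variables outside the two sets.
The field is any field of characteristic not two.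
-/

namespace Pool.Agent.Results.MP_9cec2c_lc.DepthThreeIPS

open Pool.Agent.MP_9cec2c_lc.DepthThree

universe u

/-- For every `D` there are `K` and `c > 0` such that for all `s ≥ 1` and `n ≥ K s` there is an
unsatisfiable CNF formula `F` in `n` variables with at most `2 ^ (K s) n` clauses, each of at most
`K s` literals, such that for all disjoint sets `X`, `Y` of at least `n / D` variables, over every
field with `2 ≠ 0` and with at most `c n / s` new variables defined by gates every certificate for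
`F`, whose terms are simple for `X`, `Y` (products of clauses, of functions that avoid `X` or `Y`,
of affine forms in `X`, `Y` and of functions of at most `s` variables of `X`, `Y`, the last two
kinds with disjoint sets of variables, up to `c n / s ^ 2` exceptional factors in each term), has
at least `2 ^ (c n / s)` terms. -/
theorem result :
    ∀ D : ℕ, ∃ (K : ℕ) (c : ℝ), 0 < c ∧ ∀ s n : ℕ, 1 ≤ s → K * s ≤ n →
      ∃ F : Finset (Clause n),
      F.card ≤ 2 ^ (K * s) * n ∧ (∀ C ∈ F, C.card ≤ K * s) ∧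
      (∀ a, ∃ C ∈ F, Falsifies a C) ∧
      ∀ X Y : Finset (Fin n), Disjoint X Y → n ≤ D * X.card → n ≤ D * Y.card →
      ∀ (𝕜 : Type u) [Field 𝕜], (2 : 𝕜) ≠ 0 → ∀ (E m : ℕ) (G : Fin E → Gate n E)
        (t : Fin m → Term n E 𝕜), Ordered G → (E : ℝ) ≤ c * n / s → IsCertificate F G t →
        (∀ i, (t i).SimpleFor X Y s (c * n / s ^ 2)) → (2 : ℝ) ^ (c * n / s) ≤ m := by
  intro D
  obtain ⟨D1, hD1⟩ : ∃ D1 : ℕ, D1 = D + 1 := ⟨_, rfl⟩
  have hD1' : 1 ≤ D1 := by omega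
  obtain ⟨β0, hβ⟩ : ∃ β0 : ℕ, β0 = 10 ^ 4 := ⟨_, rfl⟩
  obtain ⟨M, hM⟩ : ∃ M : ℕ, M = 2 ^ 34 := ⟨_, rfl⟩
  obtain ⟨A, hA⟩ : ∃ A : ℕ, A = 8 * (2 * D1) ^ 2 * (501 * β0 ^ 2) * (1 + 2 * M) := ⟨_, rfl⟩
  refine ⟨4 * D1 * A, 1 / (32 * 10 ^ 6 * D1 ^ 2), by positivity, fun s n hs hn => ?_⟩
  obtain ⟨κ', hκ'⟩ : ∃ κ' : ℕ, κ' = 501 * s * β0 ^ 2 := ⟨_, rfl⟩
  obtain ⟨κ, hκ⟩ : ∃ κ : ℕ, κ = 8 * (2 * D1) ^ 2 * κ' := ⟨_, rfl⟩
  have hκ0 : 0 < κ := by
    rw [hκ, hκ', hβ]; positivity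
  have hκA : κ * (1 + 2 * M) = A * s := by rw [hκ, hκ', hA]; ring
  obtain ⟨N, hN⟩ : ∃ N : ℕ, N = n / κ - 1 := ⟨_, rfl⟩
  have hnk : 4 * D1 * (1 + 2 * M) ≤ n / κ := by
    rw [Nat.le_div_iff_mul_le hκ0]
    calc 4 * D1 * (1 + 2 * M) * κ = 4 * D1 * (κ * (1 + 2 * M)) := by ring
      _ = 4 * D1 * A * s := by rw [hκA]; ring
      _ ≤ n := hn
  have hnk2 : 4 * D1 + 8 * M ≤ n / κ := by
    refine le_trans ?_ hnk
    have : 4 * 1 * (2 * M) ≤ 4 * D1 * (2 * M) := by gcongr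
    calc 4 * D1 + 8 * M = 4 * D1 + 4 * 1 * (2 * M) := by ring
      _ ≤ 4 * D1 + 4 * D1 * (2 * M) := Nat.add_le_add_left this _
      _ = 4 * D1 * (1 + 2 * M) := by ring
  have hM0 : 2 ^ 30 ≤ M := by rw [hM]; norm_num
  have hM1 : 1 ≤ M := le_trans (by norm_num) hM0
  have hN0 : N + 1 = n / κ := by omega
  have hN1 : 2 ^ 30 ≤ N := by omega
  have hND : 4 * D1 ≤ N := by omega
  have hN2 : (N + 1) * κ ≤ n := by rw [hN0]; exact Nat.div_mul_le_self n κ
  have hN3 : n ≤ (N + 2) * κ := by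
    have h1 : N + 2 = n / κ + 1 := by omega
    rw [h1, add_mul, one_mul]
    exact (Nat.lt_div_mul_add hκ0).le
  obtain ⟨F, h1, h2, h3, h4⟩ := final_bound5.{u} s (501 * s) β0 κ' κ N n D1 hs hβ rfl hκ' hD1' hκ
    hN1 hND hN2 hN3
  rw [← hM] at h2 h3
  have hAs : A * s ≤ 4 * D1 * A * s := by
    apply Nat.mul_le_mul_right
    calc A = 1 * A := (one_mul A).symm
      _ ≤ 4 * D1 * A := Nat.mul_le_mul_right _ (by omega)
  have hw : κ + κ * (2 * M) = A * s := by rw [← hκA]; ring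
  refine ⟨F, ?_, fun C hC => (h3 C hC).trans (hw ▸ hAs), h1, ?_⟩
  · have h5 : N + 1 ≤ n := le_trans (Nat.le_mul_of_pos_right _ hκ0) hN2
    calc F.card ≤ 2 ^ κ * ((N + 1) * 2 ^ (κ * (2 * M))) := h2
      _ = 2 ^ (κ + κ * (2 * M)) * (N + 1) := by rw [pow_add]; ring
      _ = 2 ^ (A * s) * (N + 1) := by rw [hw]
      _ ≤ 2 ^ (4 * D1 * A * s) * n :=
          Nat.mul_le_mul (Nat.pow_le_pow_right (by norm_num) hAs) h5
  · intro X Y hXY hX hY 𝕜 _ h2' E m G t hG hE hcert hsimple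
    have hsr : (1 : ℝ) ≤ s := by exact_mod_cast hs
    have hDr : (1 : ℝ) ≤ D1 := by exact_mod_cast hD1'
    have hc1 : 1 / (32 * 10 ^ 6 * (D1 : ℝ) ^ 2) * (n : ℝ) / s =
        (n : ℝ) / (32 * 10 ^ 6 * D1 ^ 2 * s) := by
      field_simp
    have hc2 : 1 / (32 * 10 ^ 6 * (D1 : ℝ) ^ 2) * (n : ℝ) / s ^ 2 =
        (n : ℝ) / (32 * 10 ^ 6 * D1 ^ 2 * s ^ 2) := by
      field_simp
    rw [hc1] at hE ⊢
    have hDD : D ≤ D1 := by omega
    refine h4 X Y hXY (hX.trans (Nat.mul_le_mul_right _ hDD))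
      (hY.trans (Nat.mul_le_mul_right _ hDD)) 𝕜 h2' E m G t hE hG (fun i => ?_) hcert
    have := hsimple i
    rwa [hc2] at this

end Pool.Agent.Results.MP_9cec2c_lc.DepthThreeIPS
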