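import Mathlib
import Pool.Agent.Lib.MP_9cec2c_lc.D4Final

/-!
An exponential lower bound for refutations of CNF formulas in the ideal proof system whose terms
are products of axioms, of arbitrary functions of one half of the variables, and of affine forms
and functions of few variables with disjoint sets of variables, over every field of characteristic
not two.
-/

namespace Pool.Agent.MP_9cec2c_lc.Shelf.DepthThreeIPSD4

open Pool.Agent.MP_9cec2c_lc.DepthThree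

universe u

/-- There are `K` and `c > 0` such that for all `s ≥ 1` and `n ≥ K s` there is an unsatisfiable
CNF formula `F` in `n` variables with at most `2 ^ (K s) n` clauses, each of at most `K s`
literals, such that over every field with `2 ≠ 0` and with at most `c n / s` new variables defined
by gates every certificate for `F`, whose terms are simple (up to `c n / s ^ 2` exceptional
factors each), has at least `2 ^ (c n / s)` terms. -/
theorem result :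
    ∃ (K : ℕ) (c : ℝ), 0 < c ∧ ∀ s n : ℕ, 1 ≤ s → K * s ≤ n → ∃ F : Finset (Clause n),
      F.card ≤ 2 ^ (K * s) * n ∧ (∀ C ∈ F, C.card ≤ K * s) ∧
      (∀ a, ∃ C ∈ F, Falsifies a C) ∧
      ∀ (𝕜 : Type u) [Field 𝕜], (2 : 𝕜) ≠ 0 → ∀ (E m : ℕ) (D : Fin E → Gate n E)
        (t : Fin m → Term n E 𝕜), Ordered D → (E : ℝ) ≤ c * n / s → IsCertificate F D t →
        (∀ i, (t i).Simple s (c * n / s ^ 2)) → (2 : ℝ) ^ (c * n / s) ≤ m := by
  obtain ⟨β0, hβ⟩ : ∃ β0 : ℕ, β0 = 10 ^ 4 := ⟨_, rfl⟩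
  obtain ⟨A, hA⟩ : ∃ A : ℕ, A = 2 * (501 * β0 ^ 2) * (2 * 2 ^ 34) := ⟨_, rfl⟩
  have hA1 : A < 2 ^ A := Nat.lt_two_pow_self
  have hA0 : 0 < A := by rw [hA, hβ]; positivity
  refine ⟨2 * A, 1 / 10 ^ 6, by norm_num, fun s n hs hn => ?_⟩
  obtain ⟨κ', hκ'⟩ : ∃ κ' : ℕ, κ' = 501 * s * β0 ^ 2 := ⟨_, rfl⟩
  obtain ⟨κ, hκ⟩ : ∃ κ : ℕ, κ = 2 * κ' := ⟨_, rfl⟩
  have hκ0 : 0 < κ := by
    rw [hκ, hκ', hβ]; positivity
  have hκA : κ * (2 * 2 ^ 34) = A * s := by rw [hκ, hκ', hA]; ring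
  obtain ⟨N, hN⟩ : ∃ N : ℕ, N = n / κ := ⟨_, rfl⟩
  have hN1 : 2 ^ 30 ≤ N := by
    rw [hN, Nat.le_div_iff_mul_le hκ0]
    calc 2 ^ 30 * κ ≤ 2 * 2 ^ 34 * κ := Nat.mul_le_mul_right _ (by norm_num)
      _ = A * s := by rw [← hκA]; ring
      _ ≤ 2 * A * s := Nat.mul_le_mul_right _ (by omega)
      _ ≤ n := hn
  have hN2 : N * κ ≤ n := by rw [hN]; exact Nat.div_mul_le_self n κ
  have hN3 : n ≤ (N + 1) * κ := by
    rw [hN, add_mul, one_mul]
    exact (Nat.lt_div_mul_add hκ0).le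
  obtain ⟨F, h1, h2, h3, h4⟩ := final_bound4.{u} s (501 * s) β0 κ' κ N n hs hβ rfl hκ' hκ
    hN1 hN2 hN3
  rw [hκA] at h2 h3
  have hAs : A * s ≤ 2 * A * s := Nat.mul_le_mul_right _ (by omega)
  have hAs1 : 1 ≤ A * s := Nat.mul_pos hA0 hs
  refine ⟨F, ?_, fun C hC => (h3 C hC).trans hAs, h1, ?_⟩
  · have h5 : N ≤ n := le_trans (Nat.le_mul_of_pos_right N hκ0) hN2
    have h6 : 2 * A * s = A * s + A * s := by ring
    calc F.card ≤ (N + 1) * 2 ^ (A * s) := h2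
      _ ≤ (2 * n) * 2 ^ (A * s) := Nat.mul_le_mul_right _ (by omega)
      _ = (2 * 2 ^ (A * s)) * n := by ring
      _ ≤ (2 ^ (A * s) * 2 ^ (A * s)) * n := by
          apply Nat.mul_le_mul_right
          apply Nat.mul_le_mul_right
          calc 2 = 2 ^ 1 := by norm_num
            _ ≤ 2 ^ (A * s) := Nat.pow_le_pow_right (by norm_num) hAs1
      _ = 2 ^ (2 * A * s) * n := by rw [← pow_add, h6]
  · intro 𝕜 _ h2' E m D t hD hE hcert hsimple
    have hsr : (1 : ℝ) ≤ s := by exact_mod_cast hs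
    have hc1 : 1 / 10 ^ 6 * (n : ℝ) / s = (n : ℝ) / (10 ^ 6 * s) := by
      field_simp
    have hc2 : 1 / 10 ^ 6 * (n : ℝ) / s ^ 2 = (n : ℝ) / (10 ^ 6 * s ^ 2) := by
      field_simp
    rw [hc1] at hE ⊢
    refine h4 𝕜 h2' E m D t hE hD (fun i => ?_) hcert
    have := hsimple i
    rwa [hc2] at this

end Pool.Agent.MP_9cec2c_lc.Shelf.DepthThreeIPSD4
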