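import Pool.Agent.Lib.MP_9cec2c_lc.FPAsym

/-!
Semantic refutations whose lines are given by AND/OR formulas of size `n ^ (1 + c)`, for any
`c < 1 / 2`, need `2 ^ (n ^ ε)` lines on some unsatisfiable formulas in conjunctive normal form.
-/

set_option autoImplicit false

namespace Pool.Agent.Results.MP_9cec2c_lc.FormulaLines

open Filter
open Pool.Agent.MP_9cec2c_lc.FormulaLines

/-- For every `c < 1 / 2` there is `ε > 0` such that for all large `n` there is an unsatisfiable
CNF `F` in `n` variables, with at most `n ^ 7` clauses of width at most `6 * log2 n`, such that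
every semantic refutation of `F` whose lines are arbitrary Boolean functions of at most `n ^ ε`
AND/OR formulas with at most `n ^ (1 + c)` leaves, the leaves being arbitrary functions of at
most `n ^ ε` variables, and in which every line is implied by one clause or by at most `n ^ ε`
earlier lines, has at least `2 ^ (n ^ ε)` lines. -/
theorem result (c : ℝ) (hc : c < 1 / 2) :
    ∃ ε : ℝ, 0 < ε ∧ ∀ᶠ n : ℕ in atTop,
      ∃ F : Finset (Clause (Fin n)),
        (∀ x, ∃ C ∈ F, ¬ Holds x C) ∧ F.card ≤ n ^ 7 ∧ (∀ C ∈ F, C.card ≤ 6 * Nat.log 2 n) ∧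
        ∀ (S : ℕ) (L : Fin S → Line (Fin n)),
          (∀ i, (L i).Small ((n : ℝ) ^ ε) ((n : ℝ) ^ (1 + c))) →
          IsRefutation ((n : ℝ) ^ ε) F L → (2 : ℝ) ^ ((n : ℝ) ^ ε) ≤ S :=
  Pool.Agent.MP_9cec2c_lc.TwoLevel.main_asym c hc

end Pool.Agent.Results.MP_9cec2c_lc.FormulaLines
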