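import Pool.Agent.Lib.MP_9cec2c_lc.MLEnd

/-!
Semantic refutations whose lines are inequalities with `n ^ (2 - ε)` nonlinear terms, selected by
sparse forms in a small commutative monoid and by disjunctions of conjunctions of short linear
equations modulo two, need exponentially many lines; with `n ^ (2 + ε)` terms they do not.
-/

set_option autoImplicit false

namespace Pool.Agent.Results.MP_9cec2c_lc.MixedLines

open Filter
open Pool.Agent.MP_9cec2c_lc.MixedLines

/-- For all `d` and `ε > 0` there is `δ > 0` such that for all large `n` there is an unsatisfiable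
CNF `F` in `n` variables, with at most `n ^ (2 + ε)` clauses of width at most `2 * log2 n`, such
that every semantic refutation of `F` in which each line is implied by one clause or by at most
`n ^ δ` earlier lines, and in which the lines are small in the following sense, has at least
`2 ^ (n ^ δ)` lines.  A line is an inequality between the sum of arbitrary real contributions of
the single variables and of terms (conjunctions of any number of literals times functions of few
variables) and zero, with `∑ (1 + |supp|) ^ 2 ≤ n ^ (2 - ε)` over the terms.  The inequality may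
be selected by the value of a form of the same kind in a commutative monoid with at most
`2 ^ (n ^ δ)` elements and by the truth values of at most `n ^ δ` disjunctions of any number of
conjunctions of at most `d` linear equations modulo two in at most `n ^ (1 - ε)` variables each.
The exponent `2 - ε` cannot be replaced by `2 + ε`: then there is a refutation with
`2 * |F| + 1` lines, all of them plain inequalities. -/
theorem result (d : ℕ) (ε : ℝ) (hε : 0 < ε) :
    ∃ δ : ℝ, 0 < δ ∧ ∀ᶠ n : ℕ in atTop, ∃ F : Finset (Clause (Fin n)),
      (∀ x, ∃ C ∈ F, ¬ Holds x C) ∧ (F.card : ℝ) ≤ (n : ℝ) ^ (2 + ε) ∧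
      (∀ C ∈ F, C.card ≤ 2 * Nat.log 2 n) ∧
      (∀ (S : ℕ) (L : Fin S → Line (Fin n)), IsRefutation ((n : ℝ) ^ δ) F L →
        (∀ i, (L i).Small d ((n : ℝ) ^ δ) ((n : ℝ) ^ (2 - ε)) ((n : ℝ) ^ (1 - ε))) →
          (2 : ℝ) ^ ((n : ℝ) ^ δ) ≤ S) ∧
      ∃ L : Fin (2 * F.card + 1) → Line (Fin n), IsRefutation 2 F L ∧
        ∀ i, (L i).Small 0 0 ((n : ℝ) ^ (2 + ε)) 0 :=
  final d ε hε

end Pool.Agent.Results.MP_9cec2c_lc.MixedLines
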