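import Mathlib
import Pool.Agent.Lib.MP_9cec2c_lc.ROFinal

/-!
An exponential lower bound for refutations of CNF formulas in the linear ideal proof system whose
coefficients are oblivious algebraic branching programs reading every variable a bounded number
of times, in unknown orders, over every field of characteristic not two.
-/

namespace Pool.Agent.Results.MP_9cec2c_lc.ObliviousIPS

open Pool.Agent.MP_9cec2c_lc.Oblivious

universe u

/-- For every `ℓ` there are `k` and `c > 0` such that for all `n ≥ k` there is an unsatisfiable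
CNF formula `F` in `n` variables with at most `k n` clauses, each of at most `k` literals, such
that over every field with `2 ≠ 0` every refutation of `F` whose coefficients are sums of
oblivious algebraic branching programs, using at most `ℓ` different reading sequences, each of
which reads every variable at most `ℓ` times, has total width at least `2 ^ (c n)`. -/
theorem result (ℓ : ℕ) :
    ∃ (k : ℕ) (c : ℝ), 0 < c ∧ ∀ n : ℕ, k ≤ n → ∃ F : Finset (Clause n),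
      F.card ≤ k * n ∧ (∀ C ∈ F, C.card ≤ k) ∧ (∀ a, ∃ C ∈ F, Falsifies a C) ∧
      ∀ (𝕜 : Type u) [Field 𝕜], (2 : 𝕜) ≠ 0 →
        ∀ W : Finset (List (Fin n)), W.card ≤ ℓ → (∀ σ ∈ W, ∀ i, σ.count i ≤ ℓ) →
        ∀ g : Clause n → List (ABP n 𝕜), (∀ C ∈ F, ∀ P ∈ g C, P.word ∈ W) →
        IsRefutation F g →
        (2 : ℝ) ^ (c * n) ≤ ∑ C ∈ F, (((g C).map ABP.width).sum : ℝ) := by
  obtain ⟨G, hG⟩ : ∃ G : ℕ, G = 4 * (2 ^ (2 * ℓ)) ^ ℓ := ⟨_, rfl⟩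
  obtain ⟨Δ, hΔ⟩ : ∃ Δ : ℕ, Δ = 4 * G ^ 2 := ⟨_, rfl⟩
  obtain ⟨c, hc⟩ : ∃ c : ℕ, c = G * (2 * Δ + 2) := ⟨_, rfl⟩
  obtain ⟨q, hq⟩ : ∃ q : ℕ, q = 3 * (Δ * c) + 4 := ⟨_, rfl⟩
  obtain ⟨a, ha⟩ : ∃ a : ℕ, a = 2 ^ (q + 2) := ⟨_, rfl⟩
  obtain ⟨M, hM⟩ : ∃ M : ℕ, M = c * (2 * a + 1) := ⟨_, rfl⟩
  obtain ⟨d, hd⟩ : ∃ d : ℕ, d = 2 * ℓ + 3 := ⟨_, rfl⟩
  obtain ⟨k0, hk0⟩ : ∃ k0 : ℕ, k0 = 4 * (M * Δ) + 2 := ⟨_, rfl⟩
  obtain ⟨K, hK⟩ : ∃ K : ℕ, K = 2 ^ q * (M + 1) := ⟨_, rfl⟩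
  have hK0 : 0 < K := by rw [hK]; positivity
  have hdr : (0 : ℝ) < d := by
    have : 0 < d := by omega
    exact_mod_cast this
  have hMr : (0 : ℝ) < (M : ℝ) + 1 := by positivity
  refine ⟨2 ^ k0 + K, 1 / (((M : ℝ) + 1) * d), by positivity, fun n hn => ?_⟩
  obtain ⟨w, hw⟩ : ∃ w : ℕ, w = n / K := ⟨_, rfl⟩
  obtain ⟨v, hv⟩ : ∃ v : ℕ, v = 2 ^ q * w := ⟨_, rfl⟩
  obtain ⟨m, hm⟩ : ∃ m : ℕ, m = v * ((2 * Δ + 2) * (2 * a + 1)) := ⟨_, rfl⟩
  have hw1 : 1 ≤ w := by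
    rw [hw, Nat.le_div_iff_mul_le hK0, one_mul]
    exact (Nat.le_add_left K (2 ^ k0)).trans hn
  have hwK : w * K ≤ n := by rw [hw]; exact Nat.div_mul_le_self n K
  have hwK2 : n < (w + 1) * K := by
    rw [hw, add_mul, one_mul]
    exact Nat.lt_div_mul_add hK0
  have hvK : v * M + v = w * K := by rw [hv, hK]; ring
  obtain ⟨F, h1, h2, h3, h4⟩ := final_bound.{u} ℓ G Δ c q a M w v m n d hG hΔ hc hq ha hM hw1 hv
    hm (by omega) hd
  rw [← hk0] at h2 h3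
  have hk0lt : k0 < 2 ^ k0 := Nat.lt_two_pow_self
  refine ⟨F, ?_, fun C hC => (h3 C hC).trans (by omega), h1, ?_⟩
  · have h5 : v ≤ n := by
      have : v ≤ v * M + v := Nat.le_add_left _ _
      omega
    calc F.card ≤ v * 2 ^ k0 := h2
      _ ≤ n * (2 ^ k0 + K) := Nat.mul_le_mul h5 (Nat.le_add_right _ _)
      _ = (2 ^ k0 + K) * n := Nat.mul_comm _ _
  · intro 𝕜 _ h2' W hW hcount g hword hg
    have h5 := h4 𝕜 h2' W hW hcount g hword hg
    obtain ⟨S, hS⟩ : ∃ S : ℕ, S = ∑ C ∈ F, ((g C).map ABP.width).sum := ⟨_, rfl⟩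
    rw [← hS] at h5
    have h6 : (∑ C ∈ F, (((g C).map ABP.width).sum : ℝ)) = (S : ℝ) := by
      rw [hS]; push_cast; rfl
    rw [h6]
    have h7 : ((2 : ℝ) ^ (1 / (((M : ℝ) + 1) * d) * n)) ^ d ≤ (S : ℝ) ^ d := by
      rw [← Real.rpow_natCast ((2 : ℝ) ^ (1 / (((M : ℝ) + 1) * d) * n)) d, ← Real.rpow_mul (by norm_num)]
      have h8 : ((2 : ℝ) ^ (2 * v)) ≤ (S : ℝ) ^ d := by exact_mod_cast h5
      refine le_trans ?_ h8
      rw [← Real.rpow_natCast (2 : ℝ) (2 * v)]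
      apply Real.rpow_le_rpow_of_exponent_le (by norm_num)
      have h9 : 1 / (((M : ℝ) + 1) * d) * n * d = n / ((M : ℝ) + 1) := by
        field_simp
      rw [h9, div_le_iff₀ hMr]
      have h10 : n ≤ 2 * v * (M + 1) := by
        have h11 : 2 * v * (M + 1) = 2 * (w * K) := by rw [← hvK]; ring
        have h12 : (w + 1) * K ≤ 2 * (w * K) := by
          calc (w + 1) * K ≤ (2 * w) * K := Nat.mul_le_mul_right _ (by omega)
            _ = 2 * (w * K) := by ring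
        omega
      exact_mod_cast h10
    exact le_of_pow_le_pow_left₀ (by omega) (by positivity) h7

end Pool.Agent.Results.MP_9cec2c_lc.ObliviousIPS
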