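import Pool.Agent.Lib.MP_9cec2c_lc.PHDefs
import Pool.Agent.Lib.MP_9cec2c_lc.PHFinal

/-!
The pigeonhole principle needs exponentially long refutations in resolution over parities.
-/

set_option autoImplicit false

namespace Pool.Agent.Results.MP_9cec2c_lc.PigeonholePrinciple

open Pool.Agent.MP_9cec2c_lc.PigeonProof

/-- For each finite field `k` and all `t`, `b`, `c` there is a constant `K` such that the following
holds for `n ≥ K` and `n < m ≤ c * n`. The pigeonhole principle with `m` pigeons and `n` holes
(each pigeon sits in some hole, no two pigeons sit in the same hole, each hole contains a pigeon) is
unsatisfiable, and at least `2 ^ (n / K)` different terms occur in every refutation of the following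
kind.

A term is a conjunction of any number of equations `g = 0` with functions `g` of degree at most `t`
over `k`. A line is a linear combination of terms, it says that its value is 0. Each line is
implied by a clause or by at most `b` earlier lines, and some line is false for all assignments. The
number of lines is not restricted.

The lines of resolution over parities are disjunctions of linear equations modulo 2. Such a line
is false where a conjunction of linear equations is true, so it is a line with one term, with
`k = ZMod 2` and `t = 1`. Hence each refutation in resolution over parities has at least
`2 ^ (n / K)` lines. -/
theorem result (k : Type) [Field k] [Fintype k] (t b c : ℕ) :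
    ∃ K : ℕ, 0 < K ∧ ∀ n m : ℕ, K ≤ n → n < m → m ≤ c * n →
      Needs k t b (2 ^ (n / K)) (PHP m n) :=
  php_main k t b c

end Pool.Agent.Results.MP_9cec2c_lc.PigeonholePrinciple
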