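import Pool.Agent.Lib.MP_9cec2c_lc.RDDefs
import Pool.Agent.Lib.MP_9cec2c_lc.RQFinal

/-!
Random CNFs of logarithmic width need exponentially long cutting planes refutations, also with the
redundance and dominance rules, with subproofs.
-/

set_option autoImplicit false

namespace Pool.Agent.Results.MP_9cec2c_lc.RedundanceDominance

open Pool.Agent.MP_9cec2c_lc.Dominance

/-- For every `D` there is a constant `K` such that the following holds for `K ≤ n ≤ k`,
`K * log2 k ≤ w ≤ n / K` and `(d + 1) * n ^ 3 * 2 ^ w ≤ m ≤ 2 ^ ((1 + 1 / (8 * D)) * w)`. Consider
random CNFs `F` in `n` variables with `m` clauses chosen independently and uniformly among the
clauses with `w` literals on distinct variables. All but a `2 ^ (- w / K)` fraction of them are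
unsatisfiable, and, for any disjoint sets `A` and `B` of at least `n / D` variables, every
refutation of the following kind has at least `2 ^ (n / K)` lines.

A line is an inequality `0 ≤ a x + b x`, where `a` and `b` are real functions of the assignment `x`,
`a` does not depend on the variables in `B`, and `b` does not depend on the variables in `A`. It is
stated for the assignments in a set `H i`, its hypothesis, which may be any set of assignments.
There are two rules. (1) The line follows, for the assignments in `H i`, from at most `k` clauses of
`F` and at most `k` earlier lines whose hypotheses contain `H i`. (2) `H i` contains all
assignments, and there is a local map `s` from assignments to assignments such that each of the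
following hypotheses is contradicted by at most `k` clauses of `F` and at most `k` earlier lines
whose hypotheses contain it: `x` falsifies the line and `s x` falsifies `C`, for each clause `C` of
`F` with at most `d` exceptions, and: `x` falsifies the line and `s x = x`. The map `s` is local if
each of its values `s x u` is a function of the variables outside `A` and of at most `D` variables
in `A`. Some line without hypothesis is false for all assignments.

Lines. Linear inequalities with arbitrary real coefficients are lines, in particular clauses.
Parities are conjunctions of two lines. Ordered binary decision diagrams of width `k` in `l` orders
of the variables are conjunctions of `k` lines if `D = 2 ^ (l + 1)`: by halving `l` times one finds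
`A` and `B` such that, in each of the orders, all variables in `A` come before all variables in `B`,
or after them.

New variables. In the inequalities one may also use new variables, if the value of each is a
function of the variables outside `A` or of the variables outside `B`. For instance, all functions
of `n - n / D` given variables: let `A` consist of the other variables. Or `C * n` functions of at
most `C` variables each, with `D = 4 * C ^ 3`: half of the variables occur in at most `2 * C ^ 2` of
these functions; put `n / D` of them into `A`, and the variables that occur in no function together
with a variable in `A` into `B`. The map `s` acts on the `n` variables, and the new variables
follow; its values may also be values of new variables, as far as it remains local.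

The second rule. If `s` is the identity it is proof by contradiction. In the redundance rule of
VeriPB the line itself must hold at `s x`, which is proved under the hypothesis that `x` and `s x`
falsify it; this holds if `x` falsifies it and `s x = x`. In the dominance rule it is shown that `x`
is not below `s x` in a given preorder, under the hypothesis that it is; this holds if `s x = x`.
Each obligation may have a subproof of any length: its lines are lines here, with the hypothesis of
the obligation. Both rules of VeriPB also ask that other lines hold at `s x`; this is not required
here, so that the second rule is not even sound, and the lower bound is stronger. As each use of the
rule may ignore `d` clauses of `F`, up to `d` clauses of `F` may be deleted in the course of the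
refutation; the other lines need not be kept at all. -/
theorem result : ∀ D : ℕ, 0 < D → ∃ K : ℕ, 0 < K ∧ ∀ n k w m d : ℕ, K ≤ n → n ≤ k →
    k ^ K ≤ 2 ^ w → K * w ≤ n → (d + 1) * n ^ 3 * 2 ^ w ≤ m →
    m ^ (8 * D) ≤ 2 ^ ((8 * D + 1) * w) →
    2 ^ (w / K) * {f : ClauseList n m w | ¬ Hard k D d (2 ^ (n / K)) (toCNF f)}.ncard ≤
      Fintype.card (ClauseList n m w) :=
  Pool.Agent.MP_9cec2c_lc.RedDom.random_main

end Pool.Agent.Results.MP_9cec2c_lc.RedundanceDominance
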