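import Pool.Agent.Lib.MP_9cec2c_lc.Mg.G046
import Pool.Agent.Lib.MP_9cec2c_lc.XPFinal

/-!
Random CNFs of constant width need exponentially long refutations in resolution over parities.
-/

set_option autoImplicit false

namespace Pool.Agent.Results.MP_9cec2c_lc.ResolutionOverParities

open Pool.Agent.MP_9cec2c_lc.SumProd

/-- For each `c` there is a constant `K` such that the following holds for `3 ≤ w ≤ n / K` and
`n * 2 ^ w ≤ m ≤ n * c ^ w`. Consider random CNFs in `n` variables with `m` clauses chosen
independently and uniformly among the clauses with `w` literals on distinct variables. All but a
`K / n` fraction of them are unsatisfiable, and at least `2 ^ (n / K)` different terms occur in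
every refutation of the following kind.

A term is a conjunction of linear equations modulo 2. A line is a finite set of terms, it says that
the number of its terms that are true is even. Each line is implied by a clause or by two earlier
lines, and some line is false for all assignments. The number of lines is not restricted.

The lines of resolution over parities are disjunctions of linear equations modulo 2. Such a line
is false where a conjunction of linear equations is true, so it is a line with one term. Hence each
refutation in resolution over parities has at least `2 ^ (n / K)` lines. The polynomials modulo 2
are lines as well: the monomials are terms. -/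
theorem result (c : ℕ) : ∃ K : ℕ, 0 < K ∧ ∀ n w m : ℕ, 3 ≤ w → K * w ≤ n →
    n * 2 ^ w ≤ m → m ≤ n * c ^ w →
    n * {f : ClauseList n m w | ¬ Needs (2 ^ (n / K)) (toCNF f)}.ncard ≤
      K * Fintype.card (ClauseList n m w) :=
  parity_sums_main c

end Pool.Agent.Results.MP_9cec2c_lc.ResolutionOverParities
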