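import Pool.Agent.Lib.MP_9cec2c_lc.Mg.G043
import Pool.Agent.Lib.MP_9cec2c_lc.Mg.G047

/-!
Random CNFs need exponentially long refutations in resolution over linear equations modulo a prime
number, and in resolution over polynomial equations.
-/

set_option autoImplicit false

namespace Pool.Agent.Results.MP_9cec2c_lc.ResolutionOverPolynomials

open Pool.Agent.MP_9cec2c_lc.FieldProof

/-- Let `k` be a finite field. For all `a`, `c` and `E` there is a constant `K` such that the
following holds for `w ≥ 3`, `1 ≤ t ≤ (1 - 1 / E) * w - 1`, `n ≥ K ^ t * w` and
`n * 2 ^ w ≤ m ≤ n * c ^ w`. Consider random CNFs in `n` variables with `m` clauses chosen
independently and uniformly among the clauses with `w` literals on distinct variables. All but a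
`K / n` fraction of them are unsatisfiable, and at least `2 ^ (n / K ^ t)` different terms occur in
every refutation of the following kind.

A term is a conjunction of equations `g = 0`, where `g` is a function from the assignments to `k`
of degree at most `t`. The number of equations is not restricted. A line says that a linear
combination of the indicator functions of terms is 0. Each line is implied by a clause or by at
most `a` earlier lines, and some line is false for all assignments. The number of lines is not
restricted.

The lines of resolution over parities are disjunctions of linear equations modulo 2. Such a line
is false where a conjunction of linear equations is true, so it is a line with one term, for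
`t = 1` and the field with two elements. Hence each refutation of a random CNF of width `w ≥ 3` in
resolution over parities has at least `2 ^ (n / K)` lines. The disjunctions of linear equations
modulo `p` are lines with one term for `t = p - 1`. The condition for `t` is necessary up to the
constants: for `t = w` there are refutations with at most `2 * m` lines. -/
theorem result (k : Type) [Field k] [Fintype k] (a c E : ℕ) : ∃ K : ℕ, 0 < K ∧
    ∀ n w m t : ℕ, 3 ≤ w → 1 ≤ t → E * (t + 1) + w ≤ E * w → K ^ t * w ≤ n →
    n * 2 ^ w ≤ m → m ≤ n * c ^ w →
    n * {f : ClauseList n m w | ¬ Needs k t a (2 ^ (n / K ^ t)) (toCNF f)}.ncard ≤
      K * Fintype.card (ClauseList n m w) :=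
  general_main k a c E

end Pool.Agent.Results.MP_9cec2c_lc.ResolutionOverPolynomials
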