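import Mathlib
import Pool.Agent.Lib.MP_9cec2c_lc.SUMain

/-!
Size against the size of the tree unfolding, for every dag-like refutation system with short
lines: the lines are arbitrary Boolean functions from any fixed set of `2 ^ b` functions, the
inferences are arbitrary sound inferences from at most `q` lines, `b * q ≤ s`, and at most `s`
clauses, and almost all CNFs with `s ^ (1 + ε)` clauses of width `(1 + ε) * log2 s` are hard.
-/

namespace Pool.Agent.Results.MP_9cec2c_lc.ShortLines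

open Pool.Agent.MP_9cec2c_lc.ShortLines (Cube Lit cnf)
open Pool.Agent.MP_9cec2c_lc.Unfolding

theorem result : ∀ ε : ℝ, 0 < ε → ∃ (K : ℕ) (δ : ℝ), 0 < δ ∧ ∀ᶠ n : ℕ in Filter.atTop,
    ∀ s : ℕ, n ^ K ≤ s → K * Real.logb 2 n * Real.logb 2 s ≤ n →
    ∃ N w : ℕ, (N : ℝ) ≤ (s : ℝ) ^ (1 + ε) ∧ (w : ℝ) ≤ (1 + ε) * Real.logb 2 s ∧
    ∀ b q : ℕ, 1 ≤ b → 1 ≤ q → b * q ≤ s → ∀ LL : Finset (Cube n → Bool), LL.card ≤ 2 ^ b →
      s * {f : Fin N → Fin w → Lit n | ¬ Hard LL q s δ (cnf f)}.ncard ≤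
        Fintype.card (Fin N → Fin w → Lit n) :=
  main

end Pool.Agent.Results.MP_9cec2c_lc.ShortLines
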