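import Pool.Agent.Lib.MP_9cec2c_lc.SYDefs
import Pool.Agent.Lib.MP_9cec2c_lc.SYProb

/-!
Exponential separation of resolution with the substitution redundancy rule and linearly many
extension variables from extended resolution, on almost all systems of parity equations.
-/

set_option autoImplicit false

namespace Pool.Agent.Results.MP_9cec2c_lc.SubstRedundancyLB

open Pool.Agent.MP_9cec2c_lc.SubstExt

/-- The equation `E` in `k` places, with the right-hand side `β`: the variable in the place `a`
is `E a`.  The clause excluding the values `s` of the places. -/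
def exclude {n k : ℕ} (E : Fin k → Fin n) (s : Fin k → Bool) : Clause (Fin n) :=
  Finset.univ.image (fun a => (E a, !s a))

/-- The usual CNF of the system of `m` parity equations
`x (H i 0) + … + x (H i (k - 1)) = b i` modulo 2: for each equation, all clauses excluding
values of its `k` places with the wrong sum. -/
def parityCNF {n m k : ℕ} (H : Fin m → Fin k → Fin n) (b : Fin m → ZMod 2) :
    Finset (Clause (Fin n)) :=
  Finset.univ.biUnion (fun i =>
    (Finset.univ.filter (fun s : Fin k → Bool =>
      ∑ a, (if s a then (1 : ZMod 2) else 0) ≠ b i)).image (exclude (H i)))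

/-- The formula `F` in `n` variables has at most `n ^ a` clauses with at most `a log n`
literals; it is unsatisfiable; all its refutations by reverse unit propagation, substitution
redundancy and at most `c n` extension variables have at least `2 ^ (c n)` lines; and it has a
refutation in extended resolution (reverse unit propagation and extension variables, without
the redundancy rule) with at most `n ^ a` extension variables and at most `n ^ a` lines. -/
def Separated (c : ℝ) (a : ℕ) {n : ℕ} (F : Finset (Clause (Fin n))) : Prop :=
  F.card ≤ n ^ a ∧ (∀ C ∈ F, C.card ≤ a * Nat.log 2 n) ∧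
    (∀ x : Fin n → Bool, ∃ C ∈ F, ¬ Holds x C) ∧
    (∀ (e S : ℕ) (L : Fin S → Clause (Var n e)), (e : ℝ) ≤ c * (n : ℝ) →
      IsRefutation F L → (2 : ℝ) ^ (c * (n : ℝ)) ≤ (S : ℝ)) ∧
    ∃ (e S : ℕ) (L : Fin S → Clause (Var n e)), e ≤ n ^ a ∧ S ≤ n ^ a ∧ IsExtRefutation F L

open Classical in
/-- For all large `n`, all but a fraction `1 / n` of the systems of `n ^ 4` parity equations
with `k = 32 ⌊log₂ n⌋ + 33` places in `n` variables give a formula that separates extended
resolution exponentially from resolution with substitution redundancy (where the redundancy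
rule need preserve only the clauses of the formula and the definitions of extension variables
made so far) and at most `c n` extension variables. -/
theorem result :
    ∃ c : ℝ, 0 < c ∧ ∃ a : ℕ, ∀ᶠ n : ℕ in Filter.atTop,
      ((Finset.univ.filter
        (fun p : (Fin (n ^ 4) → Fin (32 * Nat.log 2 n + 33) → Fin n) ×
          (Fin (n ^ 4) → ZMod 2) => ¬ Separated c a (parityCNF p.1 p.2))).card : ℝ) ≤
      1 / (n : ℝ) * (Fintype.card ((Fin (n ^ 4) → Fin (32 * Nat.log 2 n + 33) → Fin n) ×
          (Fin (n ^ 4) → ZMod 2)) : ℝ) := by
  refine ⟨1 / 2 ^ 400, by positivity, 40, ?_⟩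
  rw [Filter.eventually_atTop]
  refine ⟨2 ^ 4000, fun n hn => ?_⟩
  have h := Pool.Agent.MP_9cec2c_lc.SubstRed.size_log hn
  have h1 := almost_all n _ h rfl
  have hn0 : 0 < n := lt_of_lt_of_le (by positivity) hn
  have : NeZero n := ⟨hn0.ne'⟩
  have hk : 32 * (Nat.log 2 n + 1) + 1 = 32 * Nat.log 2 n + 33 := by ring
  rw [hk] at h1
  rw [Pool.Agent.MP_9cec2c_lc.SubstRed.pr_eq, div_le_iff₀ (by
    have : 0 < Fintype.card ((Fin (n ^ 4) → Fin (32 * Nat.log 2 n + 33) → Fin n) ×
      (Fin (n ^ 4) → ZMod 2)) := Fintype.card_pos
    exact_mod_cast this)] at h1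
  exact h1

end Pool.Agent.Results.MP_9cec2c_lc.SubstRedundancyLB
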